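import Pool.Agent.Helper24.EG.Goals

/-!
Project EG (MP_98cfca_co, Q2): `G_ORD`, a series with integer coefficients which is small on an arc
has large order (adapted from `Helper68.order_large`).
-/

set_option autoImplicit false

namespace Pool.Agent.Helper49.EG

open Finset Pool.Agent.Helper52 Pool.Agent.Helper24.EG

/-- the rotation by `j / N` of a full turn -/
noncomputable def om (N j : ℕ) : ℂ := Complex.exp ((2 * Real.pi * j / N : ℝ) * Complex.I)

theorem norm_om (N j : ℕ) : ‖om N j‖ = 1 := by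
  rw [om, Complex.norm_exp_ofReal_mul_I]

/-- one of the `N` rotations of `w` is on the arc -/
theorem exists_rot {t x₁ x₂ : ℝ} (ht : 0 < t) (h1 : 0 < x₁) (h12 : x₁ < x₂) (h2 : x₂ ≤ t)
    {N : ℕ} (hN : 0 < N) (hN2 : 2 * Real.pi * t / N ≤ x₂ - x₁) (w : ℂ) (hw : ‖w‖ = t) :
    ∃ j < N, x₁ ≤ (om N j * w).re ∧ (om N j * w).re ≤ x₂ := by
  set φ := w.arg with hφ
  have hN' : (0 : ℝ) < N := by exact_mod_cast hN
  have hpi := Real.pi_pos
  set θ₂ := Real.arccos (x₂ / t) with hθ₂
  set θ₁ := Real.arccos (x₁ / t) with hθ₁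
  have c2 : Real.cos θ₂ = x₂ / t := by
    rw [hθ₂, Real.cos_arccos]
    · have : 0 < x₂ / t := div_pos (h1.trans h12) ht
      linarith
    · rw [div_le_one ht]; exact h2
  have c1 : Real.cos θ₁ = x₁ / t := by
    rw [hθ₁, Real.cos_arccos]
    · have : 0 < x₁ / t := div_pos h1 ht
      linarith
    · rw [div_le_one ht]; exact h12.le.trans h2
  have hle : θ₂ ≤ θ₁ := Real.arccos_le_arccos ((div_le_div_iff_of_pos_right ht).2 h12.le)
  have hdiff : 2 * Real.pi / N ≤ θ₁ - θ₂ := by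
    have h3 := Real.abs_cos_sub_cos_le θ₂ θ₁
    have h4 : Real.cos θ₂ - Real.cos θ₁ ≤ θ₁ - θ₂ := by
      refine (le_abs_self _).trans (h3.trans ?_)
      rw [abs_sub_comm, abs_of_nonneg (sub_nonneg.2 hle)]
    rw [c1, c2, ← sub_div] at h4
    refine le_trans ?_ h4
    rw [le_div_iff₀ ht]
    calc 2 * Real.pi / N * t = 2 * Real.pi * t / N := by ring
      _ ≤ x₂ - x₁ := hN2
  set m : ℤ := ⌈(θ₂ - φ) * N / (2 * Real.pi)⌉ with hm
  have hm1 : (θ₂ - φ) * N / (2 * Real.pi) ≤ m := Int.le_ceil _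
  have hm2 : (m : ℝ) < (θ₂ - φ) * N / (2 * Real.pi) + 1 := Int.ceil_lt_add_one _
  set ψ : ℝ := φ + 2 * Real.pi * m / N with hψ
  have hψ1 : θ₂ ≤ ψ := by
    have h5 : (θ₂ - φ) * N ≤ m * (2 * Real.pi) := (div_le_iff₀ (by positivity)).1 hm1
    have h6 : θ₂ - φ ≤ m * (2 * Real.pi) / N := (le_div_iff₀ hN').2 h5
    rw [hψ]
    have h7 : 2 * Real.pi * m / N = m * (2 * Real.pi) / N := by ring
    rw [h7]
    linarith
  have hψ2 : ψ ≤ θ₁ := by
    have h5 : (m : ℝ) - 1 < (θ₂ - φ) * N / (2 * Real.pi) := by linarith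
    have h5' : ((m : ℝ) - 1) * (2 * Real.pi) < (θ₂ - φ) * N := (lt_div_iff₀ (by positivity)).1 h5
    have h6 : ((m : ℝ) - 1) * (2 * Real.pi) / N < θ₂ - φ := (div_lt_iff₀ hN').2 h5'
    rw [hψ]
    have h7 : 2 * Real.pi * m / N = ((m : ℝ) - 1) * (2 * Real.pi) / N + 2 * Real.pi / N := by ring
    rw [h7]
    linarith
  have hψ0 : 0 ≤ ψ := (Real.arccos_nonneg _).trans hψ1
  have hψp : ψ ≤ Real.pi := hψ2.trans (Real.arccos_le_pi _)
  have hcos1 : x₁ ≤ t * Real.cos ψ := by
    have h8 := Real.cos_le_cos_of_nonneg_of_le_pi hψ0 (Real.arccos_le_pi _) hψ2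
    rw [c1, div_le_iff₀ ht] at h8
    linarith
  have hcos2 : t * Real.cos ψ ≤ x₂ := by
    have h8 := Real.cos_le_cos_of_nonneg_of_le_pi (Real.arccos_nonneg _) hψp hψ1
    rw [c2, le_div_iff₀ ht] at h8
    linarith
  have hNz : (N : ℤ) ≠ 0 := by exact_mod_cast hN.ne'
  have hmod0 : 0 ≤ m % (N : ℤ) := Int.emod_nonneg _ hNz
  have hmodN : m % (N : ℤ) < N := Int.emod_lt_of_pos _ (by exact_mod_cast hN)
  set j : ℕ := (m % (N : ℤ)).toNat with hj
  have hjm : ((j : ℤ)) = m % (N : ℤ) := Int.toNat_of_nonneg hmod0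
  have hjN : j < N := by
    have : (j : ℤ) < N := by rw [hjm]; exact hmodN
    exact_mod_cast this
  refine ⟨j, hjN, ?_⟩
  have hre : (om N j * w).re = t * Real.cos ψ := by
    have hw2 : w = (t : ℂ) * Complex.exp (φ * Complex.I) := by
      rw [hφ, ← hw]
      exact (Complex.norm_mul_exp_arg_mul_I w).symm
    have hexp : om N j * w = (t : ℂ) * Complex.exp (((2 * Real.pi * j / N + φ : ℝ) : ℂ) * Complex.I) := by
      rw [om]
      conv_lhs => rw [hw2]
      rw [mul_left_comm, ← Complex.exp_add]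
      congr 2
      push_cast
      ring
    rw [hexp, Complex.re_ofReal_mul, Complex.exp_ofReal_mul_I_re]
    congr 1
    have hjr : (j : ℝ) = m - N * ((m / (N : ℤ) : ℤ) : ℝ) := by
      have h9 : (j : ℤ) = m - N * (m / (N : ℤ)) := by
        rw [hjm]
        have := Int.emod_add_mul_ediv m (N : ℤ)
        linarith
      exact_mod_cast h9
    have h10 : 2 * Real.pi * j / N + φ = ψ - ((m / (N : ℤ) : ℤ) : ℝ) * (2 * Real.pi) := by
      rw [hjr, hψ]
      field_simp
      ring
    rw [h10, Real.cos_sub_int_mul_two_pi]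
  rw [hre]
  exact ⟨hcos1, hcos2⟩

theorem gORD : G_ORD := by
  intro t x₁ x₂ κ ht0 ht h1 h12 h2 hκ
  obtain ⟨N, hNgt⟩ := exists_nat_gt (2 * Real.pi * t / (x₂ - x₁))
  have hpi := Real.pi_pos
  have hx : 0 < x₂ - x₁ := by linarith
  have hNpos' : (0 : ℝ) < N := lt_trans (by positivity) hNgt
  have hN : 0 < N := by exact_mod_cast hNpos'
  have hN2 : 2 * Real.pi * t / N ≤ x₂ - x₁ := by
    rw [div_lt_iff₀ hx] at hNgt
    rw [div_le_iff₀ hNpos']
    linarith
  have hlog : 0 < Real.log (1 / t) := by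
    apply Real.log_pos
    rw [lt_div_iff₀ ht0]; linarith
  refine ⟨κ / (4 * N * Real.log (1 / t)), κ / (2 * N), by positivity, by positivity, ?_⟩
  intro p hp Q hQ hE harc
  set ε : ℝ := κ / (4 * N * Real.log (1 / t)) with hε
  set η : ℝ := κ / (2 * N) with hη
  by_contra hnd
  have hex : ∃ m, m < ⌈ε * p⌉₊ ∧ PowerSeries.coeff m Q ≠ 0 := by
    by_contra hcon
    push Not at hcon
    exact hnd (PowerSeries.X_pow_dvd_iff.mpr hcon)
  classical
  set n := Nat.find hex with hn
  obtain ⟨hn1, hn2⟩ := Nat.find_spec hex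
  have hmin : ∀ m < n, PowerSeries.coeff m Q = 0 := by
    intro m hm
    by_contra hne
    exact Nat.find_min hex hm ⟨lt_trans hm hn1, hne⟩
  have hd : (PowerSeries.X : PowerSeries ℂ) ^ n ∣ Q := PowerSeries.X_pow_dvd_iff.mpr hmin
  have hQG := GI.good hQ
  set G := shift n Q with hGdef
  have hG : G ∈ Good := shift_mem_Good hQG
  have hG0 : 1 ≤ ‖ev 0 G‖ := by
    rw [ev_zero]
    have : PowerSeries.constantCoeff G = PowerSeries.coeff n Q := by
      rw [← PowerSeries.coeff_zero_eq_constantCoeff_apply, hGdef, shift, PowerSeries.coeff_mk,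
        zero_add]
    rw [this]
    exact GI.one_le_norm hQ hn2
  -- values on the circle
  have hGval : ∀ w : ℂ, ‖w‖ = t → ‖ev w G‖ = ‖ev w Q‖ / t ^ n := by
    intro w hw
    rw [ev_eq_pow_mul_shift hd hQG (z := w) (by rw [hw]; linarith), norm_mul, norm_pow, hw]
    rw [mul_div_cancel_left₀ _ (by positivity)]
  have hbig : ∀ w : ℂ, ‖w‖ = t → ‖ev w G‖ ≤ Real.exp (η * p) / t ^ n := by
    intro w hw
    rw [hGval w hw]
    exact div_le_div_of_nonneg_right (hE w (by rw [hw]; linarith)) (by positivity)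
  have hsmall : ∀ w : ℂ, ‖w‖ = t → x₁ ≤ w.re → w.re ≤ x₂ →
      ‖ev w G‖ ≤ Real.exp (-(κ * p)) / t ^ n := by
    intro w hw hre hre2
    rw [hGval w hw]
    exact div_le_div_of_nonneg_right (harc w hw hre hre2) (by positivity)
  have hmaps : ∀ u : ℂ, ‖u‖ = 1 → DifferentiableOn ℂ (fun z => ev (u * z) G) (Metric.ball 0 1) := by
    intro u hu
    apply (ev_differentiableOn hG).comp (by fun_prop)
    intro z hz
    simp only [Metric.mem_ball, dist_zero_right, norm_mul, hu, one_mul] at hz ⊢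
    exact hz
  set Φ : ℂ → ℂ := fun z => ∏ j ∈ range N, ev (om N j * z) G with hΦ
  have hΦd : DifferentiableOn ℂ Φ (Metric.ball 0 1) :=
    DifferentiableOn.fun_finsetProd fun j _ => hmaps _ (norm_om N j)
  have hΦdc : DiffContOnCl ℂ Φ (Metric.ball 0 t) := by
    apply DifferentiableOn.diffContOnCl
    apply hΦd.mono
    rw [closure_ball (0 : ℂ) ht0.ne']
    exact Metric.closedBall_subset_ball (by linarith)
  have htn : 0 < t ^ n := by positivity
  set e := Real.exp (η * p) / t ^ n with he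
  set q := Real.exp (-(κ * p)) / t ^ n with hq
  have he0 : 0 < e := by positivity
  have hq0 : 0 < q := by positivity
  have hfr : ∀ w ∈ frontier (Metric.ball (0 : ℂ) t), ‖Φ w‖ ≤ q * e ^ (N - 1) := by
    intro w hw
    rw [frontier_ball (0 : ℂ) ht0.ne'] at hw
    have hw' : ‖w‖ = t := by simpa using hw
    have hrot : ∀ j, ‖om N j * w‖ = t := fun j => by rw [norm_mul, norm_om, one_mul, hw']
    obtain ⟨j, hj, hj1, hj2⟩ := exists_rot ht0 h1 h12 h2 hN hN2 w hw'
    have hnorm : ‖Φ w‖ = ∏ i ∈ range N, ‖ev (om N i * w) G‖ := by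
      rw [hΦ]
      exact norm_prod _ _
    rw [hnorm, ← Finset.mul_prod_erase (range N) (fun i => ‖ev (om N i * w) G‖)
      (Finset.mem_range.2 hj)]
    have hb1 := hsmall _ (hrot j) hj1 hj2
    have hb2 : ∏ i ∈ (range N).erase j, ‖ev (om N i * w) G‖ ≤ e ^ (N - 1) := by
      calc ∏ i ∈ (range N).erase j, ‖ev (om N i * w) G‖ ≤ ∏ _i ∈ (range N).erase j, e :=
            Finset.prod_le_prod (fun i _ => norm_nonneg _) fun i _ => hbig _ (hrot i)
        _ = e ^ (N - 1) := by
            rw [Finset.prod_const, Finset.card_erase_of_mem (Finset.mem_range.2 hj),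
              Finset.card_range]
    exact mul_le_mul hb1 hb2 (Finset.prod_nonneg fun i _ => norm_nonneg _) hq0.le
  have h0 := Complex.norm_le_of_forall_mem_frontier_norm_le Metric.isBounded_ball hΦdc hfr
    (z := 0) (subset_closure (Metric.mem_ball_self ht0))
  have h1' : 1 ≤ ‖Φ 0‖ := by
    have hv : ‖Φ 0‖ = ‖ev 0 G‖ ^ N := by
      rw [hΦ]
      simp only [mul_zero, Finset.prod_const, Finset.card_range, norm_pow]
    rw [hv]
    exact one_le_pow₀ hG0
  have h3 : 1 ≤ q * e ^ (N - 1) := h1'.trans h0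
  have hle : Real.log e = η * p + n * Real.log (1 / t) := by
    rw [he, Real.log_div (by positivity) (by positivity), Real.log_exp, Real.log_pow, one_div,
      Real.log_inv]
    ring
  have hlq : Real.log q = -(κ * p) + n * Real.log (1 / t) := by
    rw [hq, Real.log_div (by positivity) (by positivity), Real.log_exp, Real.log_pow, one_div,
      Real.log_inv]
    ring
  have h4 : 0 ≤ Real.log (q * e ^ (N - 1)) := Real.log_nonneg h3
  rw [Real.log_mul hq0.ne' (by positivity), Real.log_pow, hle, hlq] at h4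
  have hNc : ((N - 1 : ℕ) : ℝ) = N - 1 := by
    rw [Nat.cast_sub hN]
    simp
  rw [hNc] at h4
  have hnlt : (n : ℝ) < ε * p := by
    have : n < ⌈ε * p⌉₊ := hn1
    exact Nat.lt_ceil.mp this
  have h5 : N * (ε * p * Real.log (1 / t)) = κ * p / 4 := by
    rw [hε]
    field_simp
  have h6 : N * ((n : ℝ) * Real.log (1 / t)) < κ * p / 4 := by
    rw [← h5]
    exact mul_lt_mul_of_pos_left (mul_lt_mul_of_pos_right hnlt hlog) hNpos'
  have h7 : N * (η * p) = κ * p / 2 := by
    rw [hη]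
    field_simp
  have h8 : 0 < η * p := by positivity
  have h9 : 0 < κ * p := by positivity
  nlinarith

end Pool.Agent.Helper49.EG
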